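import Mathlib
import Pool.Agent.helper81.DI.SpecC

set_option autoImplicit false

namespace Pool.Agent.DI

open Pool.Agent.helper58.DC

open Classical in
theorem C12_card {Γ : Type} [Group Γ] [Finite Γ] [Fintype Γ] (g : Γ) :
    (Finset.univ.filter (fun x => x ∈ conjugatesOf g)).card *
      Nat.card (Subgroup.centralizer ({g} : Set Γ)) = Nat.card Γ := by
  rw [Subgroup.nat_card_centralizer_nat_card_stabilizer]
  have h1 := MulAction.index_stabilizer (ConjAct Γ) g
  have h2 : MulAction.orbit (ConjAct Γ) g =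
      ((Finset.univ.filter (fun x => x ∈ conjugatesOf g) : Finset Γ) : Set Γ) := by
    rw [ConjAct.orbit_eq_carrier_conjClasses]
    ext x
    simp only [Finset.coe_filter, Finset.mem_univ, true_and]
    exact Iff.rfl
  rw [h2, Set.ncard_coe_finset] at h1
  rw [← h1]
  have h3 := Subgroup.index_mul_card (MulAction.stabilizer (ConjAct Γ) g)
  rw [h3]
  exact Nat.card_congr ConjAct.ofConjAct.toEquiv

open Classical in
theorem C12_om {Γ : Type} [Group Γ] [Fintype Γ] (θ : Γ → ℂ) (g : Γ) :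
    omega θ g = ∑ x ∈ Finset.univ.filter (fun x => x ∈ conjugatesOf g), θ x / θ 1 := by
  unfold omega
  rw [← Finset.sum_div]
  congr 1
  rw [← finsum_mem_coe_finset]
  congr 1
  funext y
  simp

open Classical in
theorem C12_om2 {Γ : Type} [Group Γ] [Finite Γ] [Fintype Γ] (θ : Γ → ℂ)
    (hcl : ∀ g h, θ (h * g * h⁻¹) = θ g) (g : Γ) :
    (Nat.card (Subgroup.centralizer ({g} : Set Γ)) : ℂ) * omega θ g = Nat.card Γ * θ g / θ 1 := by
  have h1 : ∀ x ∈ Finset.univ.filter (fun x => x ∈ conjugatesOf g), θ x / θ 1 = θ g / θ 1 := by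
    intro x hx
    have hx' : IsConj g x := (Finset.mem_filter.1 hx).2
    obtain ⟨c, hc⟩ := isConj_iff.1 hx'
    rw [← hc, hcl]
  rw [C12_om, Finset.sum_congr rfl h1, Finset.sum_const, nsmul_eq_mul, ← C12_card g]
  push_cast
  ring

theorem C12 (hC1 : C1_stmt) (hB1 : B1_stmt) (hOI : OI_stmt) (hTI : TI_stmt) : C12_stmt := by
  classical
  intro Γ _ _ p _ M hM hpM θ hθ hdef
  let _ : Fintype Γ := Fintype.ofFinite Γ
  obtain ⟨c1, c2, c3, c4, c5, c6, c7, c8, c9, c10⟩ := hC1 p M hM hpM
  obtain ⟨⟨n, hn0, hn1, hnd⟩, hcl, hint, horth⟩ := (hB1 Γ).2 θ hθ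
  have horth' := horth θ hθ
  rw [if_pos rfl] at horth'
  have hωint : ∀ g, IsIntegral ℤ (omega θ g) := fun g => hOI Γ ⊤ θ ((hTI Γ θ).2 hθ) g
  obtain ⟨q, hq⟩ := hnd
  have hcardpos : 0 < Nat.card Γ := Nat.card_pos
  have hq0 : q ≠ 0 := by
    rintro rfl
    omega
  have hpq : ¬ p ∣ q := by
    obtain ⟨n', hn', hd⟩ := hdef
    have hnn : n = n' := by
      rw [hn1] at hn'
      exact_mod_cast hn'
    subst hnn
    rw [Subgroup.card_top, hq, padicValNat.mul hn0.ne' hq0] at hd
    have h1 : padicValNat p q = 0 := by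
      omega
    rw [padicValNat.eq_zero_iff] at h1
    rcases h1 with h1 | h1 | h1
    · exact absurd h1 (Fact.out : p.Prime).one_lt.ne'
    · exact absurd h1 hq0
    · exact h1
  have hn0' : (n : ℂ) ≠ 0 := Nat.cast_ne_zero.2 hn0.ne'
  -- the sum over the classes
  have hsum : (q : ℂ) = ∑ K : ConjClasses Γ, θ (Quotient.out K)⁻¹ * omega θ (Quotient.out K) := by
    have h1 : (q : ℂ) = ∑ g : Γ, θ g⁻¹ * (θ g / θ 1) := by
      have h2 : ∑ g : Γ, θ g * θ g⁻¹ = (Nat.card Γ : ℂ) := by
        rw [← horth', finsum_eq_sum_of_fintype]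
      have h3 : ∑ g : Γ, θ g⁻¹ * (θ g / θ 1) = (∑ g : Γ, θ g * θ g⁻¹) / θ 1 := by
        rw [Finset.sum_div]
        exact Finset.sum_congr rfl fun g _ => by ring
      rw [h3, h2, hn1, hq]
      push_cast
      field_simp
    rw [h1, ← Finset.sum_fiberwise Finset.univ ConjClasses.mk]
    refine Finset.sum_congr rfl fun K _ => ?_
    have hK : ConjClasses.mk (Quotient.out K) = K := Quotient.out_eq K
    rw [C12_om, Finset.mul_sum]
    have hfil : Finset.univ.filter (fun g : Γ => ConjClasses.mk g = K) =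
        Finset.univ.filter (fun x => x ∈ conjugatesOf (Quotient.out K)) := by
      ext x
      simp only [Finset.mem_filter, Finset.mem_univ, true_and]
      constructor
      · intro hx
        have h5 : ConjClasses.mk (Quotient.out K) = ConjClasses.mk x := by rw [hK, hx]
        exact ConjClasses.mk_eq_mk_iff_isConj.1 h5
      · intro hx
        have h5 : IsConj (Quotient.out K) x := hx
        rw [← ConjClasses.mk_eq_mk_iff_isConj.2 h5, hK]
    rw [hfil]
    refine Finset.sum_congr rfl fun x hx => ?_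
    have hx' : IsConj (Quotient.out K) x := (Finset.mem_filter.1 hx).2
    obtain ⟨c, hc⟩ := isConj_iff.1 hx'
    have h6 : x⁻¹ = c * (Quotient.out K)⁻¹ * c⁻¹ := by
      rw [← hc]
      group
    rw [h6, hcl]
  -- a class with a nonzero contribution
  have hex : ∃ g : Γ, ¬ Mcong M (θ g⁻¹ * omega θ g) 0 := by
    by_contra hcon
    push Not at hcon
    have h1 := c10 (ConjClasses Γ) Finset.univ
      (fun K => θ (Quotient.out K)⁻¹ * omega θ (Quotient.out K)) (fun _ => 0)
      (fun K _ => hcon _)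
    rw [← hsum, Finset.sum_const_zero] at h1
    exact hpq ((c7 q).1 h1)
  obtain ⟨g, hg⟩ := hex
  have hg1 : ¬ Mcong M (omega θ g) 0 := by
    intro h
    apply hg
    have := c5 (omega θ g) 0 (θ g⁻¹) (hint _) h
    rwa [mul_zero] at this
  have hg2 : ¬ Mcong M (θ g⁻¹) 0 := by
    intro h
    apply hg
    have := c5 (θ g⁻¹) 0 (omega θ g) (hωint _) h
    rwa [mul_zero, mul_comm] at this
  refine ⟨g, ?_, hg1⟩
  intro hp
  have hcinv : Nat.card (Subgroup.centralizer ({g⁻¹} : Set Γ)) =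
      Nat.card (Subgroup.centralizer ({g} : Set Γ)) := by
    have e : Subgroup.centralizer ({g⁻¹} : Set Γ) = Subgroup.centralizer ({g} : Set Γ) := by
      ext x
      rw [Subgroup.mem_centralizer_singleton_iff, Subgroup.mem_centralizer_singleton_iff]
      constructor
      · intro h
        have : Commute x g⁻¹ := h
        exact (Commute.inv_right_iff.1 this)
      · intro h
        have : Commute x g := h
        exact (Commute.inv_right this)
    rw [e]
  obtain ⟨c', hc'⟩ := hp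
  have h1 := C12_om2 θ hcl g⁻¹
  rw [hcinv, hc', hn1, hq] at h1
  have h2 : ((p * c' : ℕ) : ℂ) * omega θ g⁻¹ = (q : ℂ) * θ g⁻¹ := by
    rw [h1]
    push_cast
    field_simp
  have h3 : Mcong M (((p * c' : ℕ) : ℂ) * omega θ g⁻¹) 0 := by
    have h4 : Mcong M ((p * c' : ℕ) : ℂ) 0 := (c7 _).2 (Dvd.intro _ rfl)
    have h5 := c5 _ _ (omega θ g⁻¹) (hωint _) h4
    rwa [mul_zero, mul_comm] at h5
  rw [h2] at h3
  have hqint : IsIntegral ℤ (q : ℂ) := isIntegral_algebraMap (R := ℤ) (A := ℂ) (x := (q : ℤ))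
  rcases c6 _ _ hqint (hint g⁻¹) h3 with h4 | h4
  · exact hpq ((c7 q).1 h4)
  · exact hg2 h4

end Pool.Agent.DI
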